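import Pool.Agent.K1H53.BI.Plan5
import Pool.Agent.K1H53.BI.FinF

/-!
# The upper bound for the inner deviation
-/

set_option autoImplicit false

open scoped ENNReal
open Finset Pool.Agent.K1H53.BI

namespace Pool.Agent.K1H13.BI5

theorem phi_le_one (ν : PMF ℕ) (G : Finset V → Prop) (s : St) : Phi ν G s ≤ 1 := by
  refine iSup_le fun n => ?_
  refine le_trans (Ex_mono _ fun a _ => ?_) (Ex_const _ 1).le
  unfold ind
  split_ifs <;> simp

theorem phi_not_mem (hI : S_INVF) (ν : PMF ℕ) (z : V) (s : St) (hz : z ∈ s.A) :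
    Phi ν (fun A => z ∉ A) s = 0 := by
  have h1 := hI.2.1 ν (fun A => z ∈ A) s (fun A hA => hA hz)
  have h2 := hI.2.2.2 ν (fun A => z ∈ A) s
  rw [h1] at h2
  have h3 : Phi ν (fun _ => True) s ≠ ⊤ :=
    ne_top_of_le_ne_top ENNReal.one_ne_top (phi_le_one _ _ _)
  exact (ENNReal.add_right_inj h3).1 (h2.trans (add_zero _).symm)

theorem site (hTERM : C_TERMF) (hABF : C_ABF) (hI : S_INVF) (ν : PMF ℕ) (σ2 M : ℝ)
    (hoff : Off ν σ2 M) (R T : ℕ) (z : V) (b : ℝ≥0∞)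
    (hb : ∀ n, Ex (run (stepF ν R) ⟨{0}, [], T - 1⟩ n) (ind fun s => z ∉ s.A ∧ Froz R s) ≤ b) :
    Phi ν (fun A => z ∉ A) ⟨{0}, [], T - 1⟩ ≤ b := by
  refine ENNReal.le_of_forall_pos_le_add fun ε hε _ => ?_
  obtain ⟨n0, hn0⟩ := hTERM ν σ2 M R ⟨{0}, [], T - 1⟩ (ε : ℝ) hoff rfl
    (by simp only [yy, card_singleton]; omega) (by exact_mod_cast hε)
  rw [hABF ν _ R n0]
  have h : ∀ s, Phi ν (fun A => z ∉ A) s ≤
      ind (fun s => z ∉ s.A ∧ Froz R s) s + ind (fun s => ¬ Froz R s) s := by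
    intro s
    by_cases h1 : Froz R s
    · by_cases h2 : z ∈ s.A
      · rw [phi_not_mem hI ν z s h2]; exact zero_le
      · have : ind (fun s => z ∉ s.A ∧ Froz R s) s = 1 := ind_yes (P := fun s => z ∉ s.A ∧ Froz R s) ⟨h2, h1⟩
        rw [this]
        exact (phi_le_one _ _ _).trans le_self_add
    · have : ind (fun s => ¬ Froz R s) s = 1 := ind_yes (P := fun s => ¬ Froz R s) h1
      rw [this]
      exact (phi_le_one _ _ _).trans le_add_self
  calc _ ≤ Ex (run (stepF ν R) ⟨{0}, [], T - 1⟩ n0)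
        (fun s => ind (fun s => z ∉ s.A ∧ Froz R s) s + ind (fun s => ¬ Froz R s) s) :=
        Ex_mono _ fun s _ => h s
    _ = _ := Ex_add _ _ _
    _ ≤ b + ε := by
        refine add_le_add (hb n0) ((hn0 n0 le_rfl).trans ?_)
        rw [ENNReal.ofReal_coe_nnreal]

theorem ex_sum {α ι : Type} (p : PMF α) (Z : Finset ι) (g : ι → α → ℝ≥0∞) :
    Ex p (fun a => ∑ z ∈ Z, g z a) = ∑ z ∈ Z, Ex p (g z) := by
  classical
  induction Z using Finset.induction_on with
  | empty => simp [Ex]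
  | insert z Z hz ih =>
    simp only [sum_insert hz]
    rw [Ex_add, ih]

theorem phi_union (ν : PMF ℕ) (Z : Finset V) (G : Finset V → Prop)
    (h : ∀ A, G A → ∃ z ∈ Z, z ∉ A) (s : St) :
    Phi ν G s ≤ ∑ z ∈ Z, Phi ν (fun A => z ∉ A) s := by
  refine iSup_le fun n => ?_
  calc Ex (run (step ν) s n) (ind fun s => Fin' s ∧ G s.A)
      ≤ Ex (run (step ν) s n) (fun s => ∑ z ∈ Z, ind (fun s => Fin' s ∧ z ∉ s.A) s) := by
        refine Ex_mono _ fun s _ => ind_le _ _ fun hs => ?_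
        obtain ⟨z, hz, hzA⟩ := h _ hs.2
        have : ind (fun s => Fin' s ∧ z ∉ s.A) s = 1 :=
          ind_yes (P := fun s => Fin' s ∧ z ∉ s.A) ⟨hs.1, hzA⟩
        rw [← this]
        exact single_le_sum (f := fun z => ind (fun s => Fin' s ∧ z ∉ s.A) s)
          (fun _ _ => zero_le) hz
    _ = ∑ z ∈ Z, Ex (run (step ν) s n) (ind (fun s => Fin' s ∧ z ∉ s.A)) := ex_sum _ _ _
    _ ≤ _ := sum_le_sum fun z _ =>
        le_iSup (fun n => Ex (run (step ν) s n) (ind (fun s => Fin' s ∧ z ∉ s.A))) n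

theorem devI_le {T : ℕ} {A : Finset V} {d : ℝ} (hd : 0 ≤ d)
    (h : ∀ z : V, nrm z < rad T - d → z ∈ A) : devI T A ≤ d :=
  csInf_le ⟨0, fun _ hx => hx.1⟩ ⟨hd, h⟩

theorem card_BR (R : ℕ) : ((BR R).card : ℝ) ≤ (2 * R + 1) ^ 3 := by
  have h1 : (BR R).card ≤ (Finset.Icc (fun _ : Fin 3 => -(R : ℤ)) (fun _ => (R : ℤ))).card :=
    card_filter_le _ _
  have h2 : (Finset.Icc (fun _ : Fin 3 => -(R : ℤ)) (fun _ => (R : ℤ))).card = (2 * R + 1) ^ 3 := by
    rw [Pi.card_Icc]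
    simp only [Int.card_Icc, prod_const, card_univ, Fintype.card_fin]
    congr 1
    omega
  rw [h2] at h1
  exact_mod_cast h1

theorem evl (K : ℝ) : ∃ r0 : ℝ, ∀ r : ℝ, r0 ≤ r → K ≤ Real.log r ∧
    K * (Real.sqrt r * Real.log r ^ 2 + 1) ≤ r := by
  set c : ℝ := 1 / (8 * (|K| + 1)) with hc
  have hc0 : 0 < c := by rw [hc]; positivity
  have h1 : ∀ᶠ x : ℝ in Filter.atTop, K ≤ Real.log x :=
    Real.tendsto_log_atTop.eventually_ge_atTop K
  have h2 : ∀ᶠ x : ℝ in Filter.atTop, ‖Real.log x ^ 2‖ ≤ c * ‖x‖ := by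
    have := (Real.isLittleO_pow_log_id_atTop (n := 2)).def hc0
    exact this
  have h3 : ∀ᶠ r : ℝ in Filter.atTop, ‖Real.log (Real.sqrt r) ^ 2‖ ≤ c * ‖Real.sqrt r‖ :=
    Real.tendsto_sqrt_atTop.eventually h2
  have h4 : ∀ᶠ r : ℝ in Filter.atTop, 2 * |K| + 1 ≤ r := Filter.eventually_ge_atTop _
  obtain ⟨r0, hr0⟩ := Filter.eventually_atTop.1 (h1.and (h3.and h4))
  refine ⟨r0, fun r hr => ?_⟩
  obtain ⟨k1, k3, k4⟩ := hr0 r hr
  refine ⟨k1, ?_⟩
  have hr1 : 0 < r := by have := abs_nonneg K; linarith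
  have hs0 : 0 ≤ Real.sqrt r := Real.sqrt_nonneg r
  rw [Real.norm_of_nonneg (sq_nonneg _), Real.norm_of_nonneg hs0, Real.log_sqrt hr1.le] at k3
  have k5 : Real.log r ^ 2 ≤ 4 * c * Real.sqrt r := by nlinarith
  have k6 : Real.sqrt r * Real.log r ^ 2 ≤ 4 * c * r := by
    calc _ ≤ Real.sqrt r * (4 * c * Real.sqrt r) := mul_le_mul_of_nonneg_left k5 hs0
      _ = 4 * c * (Real.sqrt r * Real.sqrt r) := by ring
      _ = 4 * c * r := by rw [Real.mul_self_sqrt hr1.le]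
  have k7 : (|K| + 1) * (4 * c * r) = r / 2 := by
    rw [hc]
    have : |K| + 1 ≠ 0 := by positivity
    field_simp
    norm_num
  have k8 : 0 ≤ Real.sqrt r * Real.log r ^ 2 := by positivity
  calc K * (Real.sqrt r * Real.log r ^ 2 + 1) ≤ |K| * (Real.sqrt r * Real.log r ^ 2 + 1) :=
        mul_le_mul_of_nonneg_right (le_abs_self K) (by positivity)
    _ = |K| * (Real.sqrt r * Real.log r ^ 2) + |K| := by ring
    _ ≤ (|K| + 1) * (Real.sqrt r * Real.log r ^ 2) + |K| := by nlinarith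
    _ ≤ (|K| + 1) * (4 * c * r) + |K| := by
        have := mul_le_mul_of_nonneg_left k6 (by positivity : 0 ≤ |K| + 1)
        linarith
    _ ≤ r := by rw [k7]; linarith

/-- the exponent -/
theorem expo_num {r l K C3 H δ T w0 S A θ : ℝ} (hr : 0 < r) (hl : 0 < l) (hK : 0 < K)
    (hC3 : 0 ≤ C3) (hK3 : 160 * C3 ≤ K) (hH : 0 < H) (hδ : 0 < δ) (hδ2 : δ ^ 2 = r * l ^ 4)
    (hA : A = K * r * l ^ 2) (hθ : θ = δ / (A * H)) (hS : δ * H ≤ S) (hT0 : 0 ≤ T)
    (hT : T ≤ 5 * r ^ 3) (hw : w0 ≤ 16 * C3 * l ^ 2 * H ^ 2 / r ^ 2) :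
    -θ * S + θ ^ 2 * (T * w0) ≤ -(l ^ 2 / (2 * K)) := by
  have hA0 : 0 < A := by rw [hA]; positivity
  have hθ0 : 0 < θ := by rw [hθ]; positivity
  have h1 : θ * (δ * H) = l ^ 2 / K := by
    have : θ * (δ * H) = δ ^ 2 / A := by rw [hθ]; field_simp
    rw [this, hδ2, hA]
    field_simp
  have h2 : l ^ 2 / K ≤ θ * S := by rw [← h1]; exact mul_le_mul_of_nonneg_left hS hθ0.le
  have h3 : T * w0 ≤ 5 * r ^ 3 * (16 * C3 * l ^ 2 * H ^ 2 / r ^ 2) := by
    calc T * w0 ≤ T * (16 * C3 * l ^ 2 * H ^ 2 / r ^ 2) := mul_le_mul_of_nonneg_left hw hT0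
      _ ≤ _ := mul_le_mul_of_nonneg_right hT (by positivity)
  have h4 : θ ^ 2 * (5 * r ^ 3 * (16 * C3 * l ^ 2 * H ^ 2 / r ^ 2)) = 80 * C3 * l ^ 2 / K ^ 2 := by
    rw [hθ, div_pow, hδ2, hA]
    field_simp
    ring
  have h5 : θ ^ 2 * (T * w0) ≤ 80 * C3 * l ^ 2 / K ^ 2 := by
    rw [← h4]; exact mul_le_mul_of_nonneg_left h3 (by positivity)
  have h6 : 80 * C3 * l ^ 2 / K ^ 2 ≤ l ^ 2 / (2 * K) := by
    rw [div_le_div_iff₀ (by positivity) (by positivity)]
    have : 160 * C3 * (l ^ 2 * K) ≤ K * (l ^ 2 * K) :=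
      mul_le_mul_of_nonneg_right hK3 (by positivity)
    nlinarith
  have h7 : l ^ 2 / K = 2 * (l ^ 2 / (2 * K)) := by field_simp
  linarith

theorem t_UP : S_UP := by
  intro hOFF hTERM hABF hI hG hGU hSL hWB hEX ν hν
  obtain ⟨σ2, M, hoff⟩ := hOFF ν hν
  obtain ⟨C1, hC1, hGU⟩ := hGU
  obtain ⟨C2, hC2, hSL⟩ := hSL
  obtain ⟨C4, θ0, hC4, hθ0, hEX⟩ := hEX ν hν
  obtain ⟨C3, R0, hC3, hWB⟩ := hWB C4 hC4
  set K : ℝ := 1 + 160 * C3 + C1 / θ0 + 2 * C3 / θ0 with hK
  have hK1 : 1 ≤ K := by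
    have : 0 ≤ C1 / θ0 := by positivity
    have : 0 ≤ 2 * C3 / θ0 := by positivity
    linarith
  have hK3 : 160 * C3 ≤ K := by
    have : 0 ≤ C1 / θ0 := by positivity
    have : 0 ≤ 2 * C3 / θ0 := by positivity
    linarith
  have hKC1 : C1 ≤ K * θ0 := by
    have h1 : C1 / θ0 ≤ K := by
      have : 0 ≤ 2 * C3 / θ0 := by positivity
      linarith
    rwa [div_le_iff₀ hθ0] at h1
  have hKC3 : 2 * C3 ≤ K * θ0 := by
    have h1 : 2 * C3 / θ0 ≤ K := by
      have : 0 ≤ C1 / θ0 := by positivity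
      linarith
    rwa [div_le_iff₀ hθ0] at h1
  set Q : ℝ := 20 * K + 2 * C2 + 2 * R0 + 700 with hQ
  have hR00 : (0 : ℝ) ≤ R0 := Nat.cast_nonneg _
  obtain ⟨r0, hr0⟩ := evl Q
  obtain ⟨T0, hT0⟩ := rad_large r0
  refine ⟨3, T0 + 1, by norm_num, fun T hT => ?_⟩
  have hT1 : 1 ≤ T := by omega
  obtain ⟨hl, hr⟩ := hr0 (rad T) (hT0 T (by omega))
  have hrc := rad_cube T
  set r := rad T with hrdef
  set l := Real.log r with hldef
  set δ := Real.sqrt r * l ^ 2 with hδ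
  have hQ700 : 700 ≤ Q := by linarith
  have hl1 : 1 ≤ l := by linarith
  have hδ00 : 0 ≤ δ := by positivity
  have hrQ : Q ≤ r := by
    calc Q = Q * 1 := (mul_one Q).symm
      _ ≤ Q * (δ + 1) := mul_le_mul_of_nonneg_left (by linarith) (by linarith)
      _ ≤ r := hr
  have hr1 : 1 ≤ r := by linarith
  have hrpos : 0 < r := by linarith
  have hsq1 : 1 ≤ Real.sqrt r := Real.one_le_sqrt.2 hr1
  have hl2 : l ≤ l ^ 2 := le_self_pow₀ hl1 (by norm_num)
  have hδl : l ≤ δ := by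
    calc l ≤ 1 * l ^ 2 := by linarith
      _ ≤ Real.sqrt r * l ^ 2 := mul_le_mul_of_nonneg_right hsq1 (by positivity)
      _ = δ := hδ.symm
  have hδ1 : 1 ≤ δ := by linarith
  have hδ2 : δ ^ 2 = r * l ^ 4 := by
    rw [hδ, mul_pow, Real.sq_sqrt hrpos.le]; ring
  have h2δ : 2 * (δ + 1) ≤ r := by
    have : 2 * (δ + 1) ≤ Q * (δ + 1) := mul_le_mul_of_nonneg_right (by linarith) (by linarith)
    linarith
  set R : ℕ := ⌊r - δ⌋₊ with hR
  have hRle : (R : ℝ) ≤ r - δ := Nat.floor_le (by linarith)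
  have hRge : r - δ - 1 < R := by
    have := Nat.lt_floor_add_one (r - δ)
    rw [← hR] at this
    linarith
  have hR2 : r / 2 ≤ R := by linarith
  have hRr : (R : ℝ) ≤ r := by linarith
  have hRpos : (0 : ℝ) < R := by linarith
  have hC2δ : C2 ≤ δ := by linarith
  have hC2R : C2 * R ≤ δ ^ 2 := by
    rw [hδ2]
    have h1 : C2 ≤ l ^ 4 := by
      have : l ≤ l ^ 4 := le_self_pow₀ hl1 (by norm_num)
      linarith
    calc C2 * R ≤ l ^ 4 * r := mul_le_mul h1 hRr hRpos.le (by positivity)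
      _ = _ := by ring
  have hC2d : C2 * δ ≤ R := by
    have h1 : 2 * C2 * (δ + 1) ≤ Q * (δ + 1) :=
      mul_le_mul_of_nonneg_right (by linarith) (by linarith)
    have h2 : Q * (δ + 1) ≤ r := hr
    have h3 : 2 * C2 * (δ + 1) = 2 * (C2 * δ) + 2 * C2 := by ring
    linarith
  have hvol : 4 * Real.pi / 3 * ((R : ℝ) + δ) ^ 3 ≤ T := by
    rw [← hrc]
    refine mul_le_mul_of_nonneg_left ?_ (by positivity)
    exact pow_le_pow_left₀ (by positivity) (by linarith) 3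
  have hR0R : R0 ≤ R := by
    have : (R0 : ℝ) ≤ R := by linarith
    exact_mod_cast this
  have hT5 : (T : ℝ) ≤ 5 * r ^ 3 := by
    rw [← hrc]
    refine mul_le_mul_of_nonneg_right ?_ (by positivity)
    have := Real.pi_lt_d2
    linarith
  have hlogR : Real.log R ≤ l := Real.log_le_log hRpos hRr
  have hlogR0 : 0 ≤ Real.log R := Real.log_nonneg (by linarith)
  obtain ⟨G, hGr⟩ := hG R
  set A : ℝ := K * r * l ^ 2 with hA
  have hA0 : 0 < A := by rw [hA]; positivity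
  have hAKl : K * l ≤ A := by
    rw [hA]
    calc K * l = K * 1 * l := by ring
      _ ≤ K * r * l ^ 2 := by gcongr
  have hAK : K ≤ A := by
    calc K = K * 1 := (mul_one K).symm
      _ ≤ K * l := mul_le_mul_of_nonneg_left hl1 (by linarith)
      _ ≤ A := hAKl
  have hA1 : 1 ≤ A := by linarith
  -- the bound for one site
  have key : ∀ z : V, nrm z + δ ≤ R →
      Phi ν (fun A => z ∉ A) ⟨{0}, [], T - 1⟩ ≤ ENNReal.ofReal (Real.exp (-(l ^ 2 / (2 * K)))) := by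
    intro z hz
    refine site hTERM hABF hI ν σ2 M hoff R T z _ fun n => ?_
    have hz0 : 0 ≤ nrm z := Real.sqrt_nonneg _
    have hnz : nsq z ≤ R ^ 2 := by
      have h1 : nrm z ^ 2 ≤ (R : ℝ) ^ 2 := pow_le_pow_left₀ hz0 (by linarith) 2
      have h2 : nrm z ^ 2 = nsq z := Real.sq_sqrt (Nat.cast_nonneg _)
      rw [h2] at h1
      exact_mod_cast h1
    set H : ℝ := (R : ℝ) + 1 - nrm z with hH
    have hHδ : δ ≤ H := by linarith
    have hH0 : 0 < H := by linarith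
    set θ : ℝ := δ / (A * H) with hθ
    have hθpos : 0 < θ := by rw [hθ]; positivity
    have hθA : θ ≤ 1 / A := by
      rw [hθ, div_le_div_iff₀ (by positivity) hA0]
      calc δ * A ≤ H * A := mul_le_mul_of_nonneg_right hHδ hA0.le
        _ = 1 * (A * H) := by ring
    have hSz := hSL R T δ G z hGr hC2δ hC2R hC2d hvol hz
    have c1 : C3 * θ * (1 + Real.log R) * R ≤ 1 := by
      calc C3 * θ * (1 + Real.log R) * R ≤ C3 * (1 / A) * (2 * l) * r := by
            gcongr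
            linarith
        _ = 2 * C3 * l * r / A := by ring
        _ ≤ 1 := by
            rw [div_le_one hA0, hA]
            have : 2 * C3 ≤ K := by linarith
            calc 2 * C3 * l * r ≤ K * l ^ 2 * r := by gcongr
              _ = K * r * l ^ 2 := by ring
    obtain ⟨w, w1, w2, w3, w4, w5⟩ := hWB R G z θ hR0R hGr hnz hθpos c1
    have g1 : ∀ x, θ * G x z ≤ θ0 := by
      intro x
      have h1 : G x z ≤ C1 := by
        refine (hGU R G hGr x z).trans ?_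
        refine div_le_self hC1.le ?_
        rw [Real.one_le_sqrt]
        have : (0 : ℝ) ≤ nsq (x - z) := Nat.cast_nonneg _
        linarith
      calc θ * G x z ≤ (1 / A) * C1 := mul_le_mul hθA h1 (hGr.nonneg _ _) (by positivity)
        _ = C1 / A := by ring
        _ ≤ θ0 := by
            rw [div_le_iff₀ hA0]
            calc C1 ≤ K * θ0 := hKC1
              _ ≤ A * θ0 := mul_le_mul_of_nonneg_right hAK hθ0.le
              _ = θ0 * A := by ring
    have g2 : ∀ x, θ ^ 2 * w x ≤ θ0 := by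
      intro x
      have h1 : w x ≤ 2 * C3 * l := by
        refine (w2 x).trans ?_
        calc C3 * (1 + Real.log R) ≤ C3 * (2 * l) :=
              mul_le_mul_of_nonneg_left (by linarith) hC3.le
          _ = 2 * C3 * l := by ring
      have h2 : θ ^ 2 ≤ (1 / A) ^ 2 := pow_le_pow_left₀ hθpos.le hθA 2
      calc θ ^ 2 * w x ≤ (1 / A) ^ 2 * (2 * C3 * l) := mul_le_mul h2 h1 (w1 x) (by positivity)
        _ = 2 * C3 * l / (A * A) := by
            rw [one_div, inv_pow, pow_two, mul_comm, ← div_eq_mul_inv]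
        _ ≤ θ0 := by
            rw [div_le_iff₀ (by positivity)]
            have h3 : K * l * 1 ≤ A * A := mul_le_mul hAKl hA1 (by norm_num) hA0.le
            calc 2 * C3 * l ≤ K * θ0 * l := mul_le_mul_of_nonneg_right hKC3 (by linarith)
              _ = θ0 * (K * l * 1) := by ring
              _ ≤ _ := mul_le_mul_of_nonneg_left h3 hθ0.le
    refine (hEX R T n G z w θ hGr hnz hθpos hT1 g1 g2 w1 w3 w4).trans ?_
    apply ENNReal.ofReal_le_ofReal
    apply Real.exp_le_exp.2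
    refine expo_num hrpos (by linarith) (by linarith) hC3.le hK3 hH0 (by linarith) hδ2 hA hθ hSz
      (Nat.cast_nonneg _) hT5 ?_
    refine w5.trans ?_
    rw [div_le_div_iff₀ (by positivity) (by positivity)]
    have h1 : (1 + Real.log R) ^ 2 ≤ (2 * l) ^ 2 :=
      pow_le_pow_left₀ (by linarith) (by linarith) 2
    have h2 : r ^ 2 ≤ (2 * R) ^ 2 := pow_le_pow_left₀ hrpos.le (by linarith) 2
    calc C3 * (1 + Real.log R) ^ 2 * H ^ 2 * r ^ 2 ≤ C3 * (2 * l) ^ 2 * H ^ 2 * (2 * R) ^ 2 := by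
          gcongr
      _ = 16 * C3 * l ^ 2 * H ^ 2 * (R : ℝ) ^ 2 := by ring
  -- the union
  classical
  set Z : Finset V := (BR R).filter fun z => nrm z + δ ≤ R with hZ
  refine (phi_union ν Z _ (fun A hA' => ?_) _).trans ?_
  · by_contra hno
    push Not at hno
    apply hA'
    have hd : devI T A ≤ r - R + δ := by
      refine devI_le (by linarith) fun z hz => hno z ?_
      rw [← hrdef] at hz
      have hz' : nrm z + δ ≤ R := by linarith
      rw [hZ, mem_filter, mem_BR]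
      refine ⟨?_, hz'⟩
      have hz0 : 0 ≤ nrm z := Real.sqrt_nonneg _
      have h1 : nrm z ^ 2 ≤ (R : ℝ) ^ 2 := pow_le_pow_left₀ hz0 (by linarith) 2
      have h2 : nrm z ^ 2 = nsq z := Real.sq_sqrt (Nat.cast_nonneg _)
      rw [h2] at h1
      exact_mod_cast h1
    refine hd.trans ?_
    have : 3 * Real.sqrt r * l ^ 2 = 3 * δ := by rw [hδ, mul_assoc]
    rw [this]
    linarith
  · have h1 : ∑ z ∈ Z, Phi ν (fun A => z ∉ A) ⟨{0}, [], T - 1⟩ ≤
        ∑ z ∈ Z, ENNReal.ofReal (Real.exp (-(l ^ 2 / (2 * K)))) :=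
      sum_le_sum fun z hz => key z (mem_filter.1 hz).2
    refine h1.trans ?_
    rw [sum_const, nsmul_eq_mul, ← ENNReal.ofReal_natCast, ← ENNReal.ofReal_mul (Nat.cast_nonneg _)]
    apply ENNReal.ofReal_le_ofReal
    have h2 : (Z.card : ℝ) ≤ 27 * r ^ 3 := by
      have h3 : (Z.card : ℝ) ≤ ((BR R).card : ℝ) := by exact_mod_cast card_filter_le _ _
      refine (h3.trans (card_BR R)).trans ?_
      calc (2 * (R : ℝ) + 1) ^ 3 ≤ (3 * r) ^ 3 :=
            pow_le_pow_left₀ (by positivity) (by linarith) 3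
        _ = 27 * r ^ 3 := by ring
    have h3 : Real.exp (-(l ^ 2 / (2 * K))) ≤ (r ^ 10)⁻¹ := by
      have h4 : 10 * l ≤ l ^ 2 / (2 * K) := by
        rw [le_div_iff₀ (by positivity)]
        calc 10 * l * (2 * K) = 20 * K * l := by ring
          _ ≤ l * l := mul_le_mul_of_nonneg_right (by linarith) (by linarith)
          _ = l ^ 2 := by ring
      have h5 : Real.exp (-(10 * l)) = (r ^ 10)⁻¹ := by
        rw [Real.exp_neg]
        congr 1
        have : Real.exp (10 * l) = Real.exp l ^ 10 := by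
          rw [← Real.exp_nat_mul]; norm_num
        rw [this, hldef, Real.exp_log hrpos]
      rw [← h5]
      exact Real.exp_le_exp.2 (by linarith)
    have hTpos : (0 : ℝ) < T := by exact_mod_cast hT1
    rw [le_div_iff₀ (by positivity)]
    have h6 : (T : ℝ) ^ 2 ≤ (5 * r ^ 3) ^ 2 := pow_le_pow_left₀ hTpos.le hT5 2
    calc (Z.card : ℝ) * Real.exp (-(l ^ 2 / (2 * K))) * (T : ℝ) ^ 2 ≤
          (27 * r ^ 3) * (r ^ 10)⁻¹ * (5 * r ^ 3) ^ 2 := by gcongr
      _ = 675 / r := by field_simp; norm_num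
      _ ≤ 1 := by
          rw [div_le_one hrpos]
          linarith

end Pool.Agent.K1H13.BI5
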